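import Pool.Agent.V11287.BF8

/-!
# MP_f41da7_an

For `n = 3`, `s = 1` and `ν = -δ ∈ (n-2s-2, n-2s-1) = (-1,0)` with `0 < δ ≤ 1/1000`, the function
`J_ν'''` has exactly two nonreal zeros (a purely imaginary pair), so Q1 (which predicts six nonreal
zeros) is false.
-/

open Set Filter Topology Pool.Agent.V11287.BF

namespace Pool.Agent.Results.MP_f41da7_an.TwoNonreal

noncomputable section

/-- `J_ν(x) = ∑ (-1)^m / (m! Γ(m+ν+1)) (x/2)^{2m+ν}` for real `x > 0` (with the real power). -/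
def besselJ (ν : ℝ) (x : ℝ) : ℝ :=
  ∑' m : ℕ, (-1) ^ m / (m.factorial * Real.Gamma (m + ν + 1)) * (x / 2) ^ (2 * m + ν)

/-- The even entire function with `J_ν^{(n)}(z) = z^{ν-n} G_{ν,n}(z)`:
`G_{ν,n}(z) = ∑ (-1)^m (ν+2m)(ν+2m-1)⋯(ν+2m-n+1) / (m! Γ(m+ν+1) 2^{2m+ν}) z^{2m}`. -/
def G (ν : ℝ) (n : ℕ) (z : ℂ) : ℂ :=
  ∑' m : ℕ, (((-1) ^ m * (∏ i ∈ Finset.range n, (ν + 2 * m - i)) /
      (m.factorial * Real.Gamma (m + ν + 1)) * (1 / 2) ^ (2 * m + ν) : ℝ) : ℂ) * z ^ (2 * m)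

/-- the number of nonreal zeros of `g`, counted with multiplicity, is `N` -/
def NonrealZeroCount (g : ℂ → ℂ) (N : ℕ) : Prop :=
  ∃ h : {z : ℂ | g z = 0 ∧ z.im ≠ 0}.Finite, ∑ z ∈ h.toFinset, analyticOrderNatAt g z = N

/-- the number of purely imaginary zeros `iy`, `y ≠ 0`, of `g`, counted with multiplicity,
is `N` -/
def ImagZeroCount (g : ℂ → ℂ) (N : ℕ) : Prop :=
  ∃ h : {z : ℂ | g z = 0 ∧ z.re = 0 ∧ z ≠ 0}.Finite, ∑ z ∈ h.toFinset, analyticOrderNatAt g z = N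

lemma pb_cL (κ δ : ℝ) (hδ0 : 0 ≤ δ) (hδ : δ ≤ 1 / 2) : PB (fun m => κ * cL δ m) := by
  refine ⟨|κ|, 4, abs_nonneg _, by norm_num, fun m => ?_⟩
  have h1 := cL_pos δ (by linarith) m
  rw [abs_mul, abs_of_pos h1]
  apply mul_le_mul_of_nonneg_left _ (abs_nonneg _)
  refine le_of_tendsto ((tendsto_cR δ (by linarith) m)) ?_
  filter_upwards [eventually_gt_atTop 0] with N hN
  exact cR_le δ hδ0 hδ N m hN

lemma half_pow (δ : ℝ) (m : ℕ) :
    (1 / 2 : ℝ) ^ (2 * (m:ℝ) + -δ) = (1 / 2) ^ (-δ) * (1 / 4) ^ m := by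
  rw [Real.rpow_add (by norm_num)]
  have : (1 / 2 : ℝ) ^ (2 * (m:ℝ)) = (1 / 4) ^ m := by
    have e : (2 * (m:ℝ)) = ((2 * m : ℕ) : ℝ) := by push_cast; rfl
    rw [e, Real.rpow_natCast, pow_mul]
    norm_num
  rw [this]
  ring

/-- the link between the series `G` and the derivatives of `J_ν` on `(0,∞)` -/
theorem deriv_eq (δ : ℝ) (hδ0 : 0 < δ) (hδ : δ ≤ 1 / 1000) (n : ℕ) (x : ℝ) (hx : 0 < x) :
    ((iteratedDeriv n (besselJ (-δ)) x : ℝ) : ℂ) = ((x ^ (-δ - n) : ℝ) : ℂ) * G (-δ) n x := by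
  have hδ1 : δ < 1 := by linarith
  set b : ℕ → ℝ := fun m => (1 / 2) ^ (-δ) * ((-1 / 4) ^ m * (kap δ * cL δ m)) with hb
  have hpb : PB b := by
    obtain ⟨K, R, hK, hR, h⟩ := pb_cL (kap δ) δ hδ0.le (by linarith)
    refine ⟨(1 / 2) ^ (-δ) * K, R, by positivity, hR, fun m => ?_⟩
    rw [hb]
    simp only
    rw [abs_mul, abs_mul, abs_of_pos (by positivity : (0:ℝ) < (1 / 2) ^ (-δ)), mul_assoc]
    apply mul_le_mul_of_nonneg_left _ (by positivity)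
    have h1 : |(-1 / 4 : ℝ) ^ m| ≤ 1 := by
      rw [abs_pow]
      apply pow_le_one₀ (abs_nonneg _)
      rw [abs_le]; constructor <;> norm_num
    calc |(-1 / 4 : ℝ) ^ m| * |kap δ * cL δ m| ≤ 1 * |kap δ * cL δ m| :=
          mul_le_mul_of_nonneg_right h1 (abs_nonneg _)
      _ = |kap δ * cL δ m| := one_mul _
      _ ≤ _ := h m
  have hJ : ∀ t : ℝ, 0 < t → besselJ (-δ) t = t ^ (-δ) * fR b (t ^ 2) := by
    intro t ht
    unfold besselJ fR
    rw [← tsum_mul_left]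
    congr 1
    ext m
    have e1 : (t / 2) ^ (2 * (m:ℝ) + -δ) = t ^ (-δ) * (1 / 2) ^ (-δ) * (t / 2) ^ (2 * m) := by
      rw [Real.rpow_add (by positivity), div_eq_mul_one_div t 2,
        Real.mul_rpow (y := 1/2) (z := -δ) ht.le (by norm_num)]
      have : (t * (1 / 2)) ^ (2 * (m:ℝ)) = (t * (1 / 2)) ^ (2 * m) := by
        rw [← Real.rpow_natCast]
        push_cast
        rfl
      rw [this]
      ring
    have e2 := cL_eq δ hδ1 m
    rw [e1, hb]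
    simp only
    rw [← e2]
    have e3 : (-1 / 4 : ℝ) ^ m * (t ^ 2) ^ m = (-1) ^ m * (t / 2) ^ (2 * m) := by
      rw [pow_mul, ← mul_pow, ← mul_pow]
      congr 1
      ring
    calc _ = t ^ (-δ) * ((1 / 2) ^ (-δ) * ((1 / ((m.factorial : ℝ) * Real.Gamma ((m : ℝ) + -δ + 1))) *
          ((-1) ^ m * (t / 2) ^ (2 * m)))) := by ring
      _ = _ := by rw [← e3]; ring
  have h1 : besselJ (-δ) =ᶠ[𝓝 x] fun t => t ^ (-δ) * fR b (t ^ 2) := by
    filter_upwards [Ioi_mem_nhds hx] with t ht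
    exact hJ t ht
  rw [h1.iteratedDeriv_eq, iteratedDeriv_pow_mul hpb (-δ) n x hx]
  have e6 : G (-δ) n x = ((∑' m : ℕ, ((-1) ^ m * (∏ i ∈ Finset.range n, (-δ + 2 * m - i)) /
      (m.factorial * Real.Gamma (m + -δ + 1)) * (1 / 2) ^ (2 * m + -δ)) * x ^ (2 * m) : ℝ) : ℂ) := by
    unfold G
    rw [Complex.ofReal_tsum]
    congr 1
    ext m
    push_cast
    rfl
  rw [e6, ← Complex.ofReal_mul]
  congr 1
  congr 1
  unfold fR
  congr 1
  ext m
  unfold dc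
  rw [hb]
  simp only
  rw [half_pow, ← cL_eq δ hδ1 m]
  have e3 : (-1 / 4 : ℝ) ^ m * (x ^ 2) ^ m = (-1) ^ m * (1 / 4) ^ m * x ^ (2 * m) := by
    rw [pow_mul, ← mul_pow, ← mul_pow, ← mul_pow]
    congr 1
    ring
  calc _ = (1 / 2) ^ (-δ) * (∏ i ∈ Finset.range n, (-δ + 2 * m - i)) *
        (1 / ((m.factorial : ℝ) * Real.Gamma ((m : ℝ) + -δ + 1))) *
          ((-1 / 4 : ℝ) ^ m * (x ^ 2) ^ m) := by ring
    _ = _ := by rw [e3]; ring

lemma G_eq (δ : ℝ) (hδ1 : δ < 1) (z : ℂ) :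
    G (-δ) 3 z = (((1 / 2 : ℝ) ^ (-δ) : ℝ) : ℂ) * fC (aH (kap δ) δ) (-(z / 2) ^ 2) := by
  unfold G fC
  rw [← tsum_mul_left]
  congr 1
  ext m
  have e2 := cL_eq δ hδ1 m
  have e3 : (-(z / 2) ^ 2) ^ m = (-1) ^ m * (1 / 4) ^ m * z ^ (2 * m) := by
    rw [pow_mul, ← mul_pow, ← mul_pow]
    congr 1
    ring
  rw [e3, half_pow]
  have e4 : ((-1) ^ m * (∏ i ∈ Finset.range 3, (-δ + 2 * m - i)) /
    (m.factorial * Real.Gamma (m + -δ + 1)) : ℝ) = (-1) ^ m * aH (kap δ) δ m := by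
    unfold aH
    calc _ = (-1) ^ m * (∏ i ∈ Finset.range 3, (-δ + 2 * (m:ℝ) - i)) *
          (1 / ((m.factorial : ℝ) * Real.Gamma ((m : ℝ) + -δ + 1))) := by ring
      _ = _ := by
        rw [e2]
        simp only [Finset.prod_range_succ, Finset.prod_range_zero]
        push_cast
        ring
  rw [e4]
  push_cast
  ring

/-- There is `y₀ > 0` such that the nonreal zeros of `G_{-δ,3}` are `± i y₀`, both simple. -/
theorem zeros (δ : ℝ) (hδ0 : 0 < δ) (hδ : δ ≤ 1 / 1000) : ∃ y₀ : ℝ, 0 < y₀ ∧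
    (∀ z : ℂ, (G (-δ) 3 z = 0 ∧ z.im ≠ 0) ↔ (z = y₀ * Complex.I ∨ z = -(y₀ * Complex.I))) ∧
    analyticOrderNatAt (G (-δ) 3) (y₀ * Complex.I) = 1 ∧
    analyticOrderNatAt (G (-δ) 3) (-(y₀ * Complex.I)) = 1 := by
  have hδ1 : δ < 1 := by linarith
  have hκ := kap_pos δ hδ1
  have hlim := lim_H (kap δ) δ hδ0 hδ
  obtain ⟨p, hp, hfp⟩ := fH_exists (kap δ) δ hδ0 hδ hκ
  have hC : (((1 / 2 : ℝ) ^ (-δ) : ℝ) : ℂ) ≠ 0 := by
    rw [Complex.ofReal_ne_zero]; positivity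
  have hfun : G (-δ) 3 = fun z => (((1 / 2 : ℝ) ^ (-δ) : ℝ) : ℂ) *
      fC (aH (kap δ) δ) (-(z / 2) ^ 2) := by
    ext z; exact G_eq δ hδ1 z
  set y₀ : ℝ := 2 * Real.sqrt p with hy₀
  have hy₀pos : 0 < y₀ := by positivity
  have hy₀sq : y₀ ^ 2 = 4 * p := by
    rw [hy₀, mul_pow, Real.sq_sqrt hp.le]; norm_num
  have hI : ∀ z : ℂ, z = y₀ * Complex.I ∨ z = -(y₀ * Complex.I) → -(z / 2) ^ 2 = (p : ℂ) := by
    intro z hz
    have h1 : z ^ 2 = -(4 * (p : ℂ)) := by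
      have h2 : ((y₀ : ℂ)) ^ 2 = 4 * (p : ℂ) := by exact_mod_cast hy₀sq
      rcases hz with rfl | rfl
      · rw [mul_pow, Complex.I_sq, h2]; ring
      · rw [neg_sq, mul_pow, Complex.I_sq, h2]; ring
    rw [div_pow, h1]
    ring
  have hzero : ∀ z : ℂ, z = y₀ * Complex.I ∨ z = -(y₀ * Complex.I) → G (-δ) 3 z = 0 := by
    intro z hz
    rw [G_eq δ hδ1, hI z hz, fC_ofReal, hfp]
    simp
  have hder : ∀ z : ℂ, HasDerivAt (G (-δ) 3) ((((1 / 2 : ℝ) ^ (-δ) : ℝ) : ℂ) *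
      (fC (D (aH (kap δ) δ)) (-(z / 2) ^ 2) * (-(z / 2)))) z := by
    intro z
    rw [hfun]
    apply HasDerivAt.const_mul
    have h1 : HasDerivAt (fun z : ℂ => -(z / 2) ^ 2) (-(z / 2)) z := by
      have h2 : HasDerivAt (fun z : ℂ => z / 2) (1 / 2) z := (hasDerivAt_id z).div_const 2
      have h3 := (h2.pow 2).neg
      refine h3.congr_deriv ?_
      push_cast
      ring
    exact (hlim.pb.hasDerivAt _).comp z h1
  have hord : ∀ z : ℂ, z = y₀ * Complex.I ∨ z = -(y₀ * Complex.I) →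
      analyticOrderNatAt (G (-δ) 3) z = 1 := by
    intro z hz
    have hdiff : Differentiable ℂ (G (-δ) 3) := fun w => (hder w).differentiableAt
    have han : AnalyticAt ℂ (G (-δ) 3) z :=
      hdiff.differentiableOn.analyticOnNhd isOpen_univ z (mem_univ z)
    have hdne : deriv (G (-δ) 3) z ≠ 0 := by
      rw [(hder z).deriv, hI z hz, fC_ofReal]
      have h1 := fH_deriv (kap δ) δ hδ0 hδ hκ p hp hfp
      apply mul_ne_zero hC
      apply mul_ne_zero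
      · rw [Complex.ofReal_ne_zero]; exact h1.ne'
      · intro h0
        have h2 : z = 0 := by linear_combination -2 * h0
        have h3 : ((y₀ : ℂ)) * Complex.I ≠ 0 :=
          mul_ne_zero (by rw [Complex.ofReal_ne_zero]; exact hy₀pos.ne') Complex.I_ne_zero
        rcases hz with h | h
        · exact h3 (by rw [← h]; exact h2)
        · apply h3
          have : ((y₀ : ℂ)) * Complex.I = -z := by rw [h, neg_neg]
          rw [this, h2, neg_zero]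
    have h1 := han.analyticOrderAt_sub_eq_one_of_deriv_ne_zero hdne
    rw [hzero z hz] at h1
    simp only [sub_zero] at h1
    unfold analyticOrderNatAt
    rw [h1]
    rfl
  refine ⟨y₀, hy₀pos, fun z => ⟨fun ⟨hz, him⟩ => ?_, fun hz => ⟨hzero z hz, ?_⟩⟩,
    hord _ (Or.inl rfl), hord _ (Or.inr rfl)⟩
  · rw [G_eq δ hδ1] at hz
    have hz1 := (mul_eq_zero.mp hz).resolve_left hC
    have h0 : aH (kap δ) δ 0 ≠ 0 := by
      rw [aH_zero]
      have : 0 < kap δ * (δ * (1 + δ) * (2 + δ)) := by positivity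
      linarith
    have hwim := hlim.real_zeros h0 _ hz1
    set w : ℂ := -(z / 2) ^ 2 with hw
    have hwre : w = ((w.re : ℝ) : ℂ) := by
      apply Complex.ext <;> simp [hwim]
    rw [hwre, fC_ofReal] at hz1
    have hz' : fR (aH (kap δ) δ) w.re = 0 := by exact_mod_cast hz1
    have h1 : w.re = -(z.re ^ 2 - z.im ^ 2) / 4 := by
      rw [hw]
      simp [sq, Complex.mul_re, Complex.div_re, Complex.div_im]
      ring
    have h2 : w.im = -(z.re * z.im) / 2 := by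
      rw [hw]
      simp [sq, Complex.mul_im, Complex.div_re, Complex.div_im]
      ring
    rw [hwim] at h2
    have h3 : z.re * z.im = 0 := by linarith
    have h4 : z.re = 0 := (mul_eq_zero.mp h3).resolve_right him
    rw [h4] at h1
    have h5 : 0 < z.im ^ 2 := by positivity
    have hwpos : 0 < w.re := by rw [h1]; linarith
    have h6 : w.re = p := by
      rcases lt_trichotomy w.re p with h | h | h
      · exact (fH_unique (kap δ) δ hδ0 hδ hκ w.re p hwpos h hz' hfp).elim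
      · exact h
      · exact (fH_unique (kap δ) δ hδ0 hδ hκ p w.re hp h hfp hz').elim
    have h7 : z.im ^ 2 = y₀ ^ 2 := by
      rw [hy₀sq, ← h6, h1]; ring
    rcases sq_eq_sq_iff_eq_or_eq_neg.mp h7 with h8 | h8
    · left
      apply Complex.ext <;> simp [h4, h8]
    · right
      apply Complex.ext <;> simp [h4, h8]
  · rcases hz with rfl | rfl
    · simp; exact hy₀pos.ne'
    · simp; exact hy₀pos.ne'

theorem finset_eq (δ : ℝ) (hδ0 : 0 < δ) (hδ : δ ≤ 1 / 1000)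
    (h : {z : ℂ | G (-δ) 3 z = 0 ∧ z.im ≠ 0}.Finite) :
    ∑ z ∈ h.toFinset, analyticOrderNatAt (G (-δ) 3) z = 2 := by
  obtain ⟨y₀, hy₀, hz, ho1, ho2⟩ := zeros δ hδ0 hδ
  have e : h.toFinset = {(y₀ * Complex.I : ℂ), -(y₀ * Complex.I)} := by
    ext z
    rw [Set.Finite.mem_toFinset, Set.mem_setOf_eq, hz z]
    simp
  rw [e, Finset.sum_pair, ho1, ho2]
  intro h0
  have := congrArg Complex.im h0
  simp at this
  linarith

theorem finite (δ : ℝ) (hδ0 : 0 < δ) (hδ : δ ≤ 1 / 1000) :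
    {z : ℂ | G (-δ) 3 z = 0 ∧ z.im ≠ 0}.Finite := by
  obtain ⟨y₀, hy₀, hz, ho1, ho2⟩ := zeros δ hδ0 hδ
  have e : {z : ℂ | G (-δ) 3 z = 0 ∧ z.im ≠ 0} = {(y₀ * Complex.I : ℂ), -(y₀ * Complex.I)} := by
    ext z
    rw [Set.mem_setOf_eq, hz z]
    simp
  rw [e]
  exact Set.toFinite _

/-- **Main result.**  For `0 < δ ≤ 1/1000` the function `J'''_{-δ}` has exactly two nonreal zeros
counted with multiplicity, and they are purely imaginary.  So the assertion of Q1, which for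
`n = 3`, `s = 1` predicts six nonreal zeros, is false. -/
theorem result :
    (∀ δ : ℝ, 0 < δ → δ ≤ 1 / 1000 →
      (∀ x : ℝ, 0 < x → ((iteratedDeriv 3 (besselJ (-δ)) x : ℝ) : ℂ) =
        ((x ^ (-δ - 3) : ℝ) : ℂ) * G (-δ) 3 x) ∧
      NonrealZeroCount (G (-δ) 3) 2 ∧ ∀ z : ℂ, G (-δ) 3 z = 0 → z.im ≠ 0 → z.re = 0) ∧
    ¬ ∀ (n s : ℕ) (ν : ℝ), ν ∈ Ioo ((n : ℝ) - 2 * s - 2) ((n : ℝ) - 2 * s - 1) →
      NonrealZeroCount (G ν n) (4 * s + 2) ∧ ImagZeroCount (G ν n) 2 := by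
  refine ⟨fun δ hδ0 hδ => ⟨fun x hx => ?_, ⟨finite δ hδ0 hδ, finset_eq δ hδ0 hδ _⟩, ?_⟩, fun h => ?_⟩
  · have := deriv_eq δ hδ0 hδ 3 x hx
    exact_mod_cast this
  · intro z hz him
    obtain ⟨y₀, hy₀, hz', ho1, ho2⟩ := zeros δ hδ0 hδ
    rcases (hz' z).mp ⟨hz, him⟩ with rfl | rfl
    · simp
    · simp
  · obtain ⟨hfin, hsum⟩ := (h 3 1 (-(1 / 1000)) (by constructor <;> norm_num)).1
    rw [finset_eq (1 / 1000) (by norm_num) le_rfl hfin] at hsum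
    norm_num at hsum

end

end Pool.Agent.Results.MP_f41da7_an.TwoNonreal
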